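import Pool.Agent.Helper81.LT.Inc

/-!
MP_c20641_lc, packet ULT: the ultrapower step.
-/

namespace Pool.Agent.Helper64.LT

open FirstOrder Language Filter
open Pool.Agent.Helper81.LT

/-- the ultrafilter -/
noncomputable def U : Ultrafilter ℕ := hyperfilter ℕ

/-- the ultrapower -/
abbrev UM : Type := (U : Filter ℕ).Product (fun _ => ℕ)

/-- the class of a sequence -/
noncomputable def c (f : ℕ → ℕ) : UM := (f : (U : Filter ℕ).Product (fun _ => ℕ))

lemma c_surj (u : UM) : ∃ f, c f = u := Quotient.exists_rep u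

lemma ev_of_le {p : ℕ → Prop} (m : ℕ) (h : ∀ N, m ≤ N → p N) : ∀ᶠ N in (U : Filter ℕ), p N := by
  have h1 : ∀ᶠ N in (cofinite : Filter ℕ), p N := by
    rw [Nat.cofinite_eq_atTop]
    exact eventually_atTop.mpr ⟨m, fun N hN => h N hN⟩
  exact h1.filter_mono hyperfilter_le_cofinite

lemma los_formula {β : Type} (φ : LA.Formula β) (x : β → ℕ → ℕ) :
    (φ.Realize (fun i => c (x i))) ↔ ∀ᶠ N in (U : Filter ℕ), φ.Realize (fun i => x i N) :=
  Ultraproduct.realize_formula_cast (L := LA) (M := fun _ => ℕ) (u := U) φ x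

lemma los_fun {n : ℕ} (f : LA.Functions n) (x : Fin n → ℕ → ℕ) :
    (Structure.funMap f (fun i => c (x i)) : UM) =
      c (fun N => Structure.funMap f (fun i => x i N)) :=
  Ultraproduct.funMap_cast (L := LA) (M := fun _ => ℕ) (u := U) f x

lemma c_eq (f g : ℕ → ℕ) : c f = c g ↔ ∀ᶠ N in (U : Filter ℕ), f N = g N := Quotient.eq''

lemma lt_iff (f g : ℕ → ℕ) : Lt UM (c f) (c g) ↔ ∀ᶠ N in (U : Filter ℕ), f N < g N := by
  have h := Ultraproduct.realize_formula_cast (L := LA) (M := fun _ => ℕ) (u := U)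
    (Relations.formula₂ (L := LA) (α := Fin 2) ARel.lt (Term.var 0) (Term.var 1)) ![f, g]
  rw [Formula.realize_rel₂] at h
  have h2 : ∀ N, (Relations.formula₂ (L := LA) (α := Fin 2) ARel.lt (Term.var 0)
      (Term.var 1)).Realize (fun i => (![f, g] : Fin 2 → ℕ → ℕ) i N) ↔ f N < g N := by
    intro N
    rw [Formula.realize_rel₂]
    rfl
  simp only [h2] at h
  exact h

lemma add_c (f g : ℕ → ℕ) : Add' UM (c f) (c g) = c (fun N => f N + g N) := by
  have h := los_fun (AFun.add : LA.Functions 2) ![f, g]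
  have e : (![c f, c g] : Fin 2 → UM) = fun i => c ((![f, g] : Fin 2 → ℕ → ℕ) i) := by
    funext i
    fin_cases i <;> rfl
  rw [← e] at h
  exact h

lemma mul_c (f g : ℕ → ℕ) : Mul' UM (c f) (c g) = c (fun N => f N * g N) := by
  have h := los_fun (AFun.mul : LA.Functions 2) ![f, g]
  have e : (![c f, c g] : Fin 2 → UM) = fun i => c ((![f, g] : Fin 2 → ℕ → ℕ) i) := by
    funext i
    fin_cases i <;> rfl
  rw [← e] at h
  exact h

lemma one_c : One' UM = c (fun _ => 1) := by
  have h := los_fun (AFun.one : LA.Functions 0) ![]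
  have e : (![] : Fin 0 → UM) = fun i => c ((![] : Fin 0 → ℕ → ℕ) i) := by
    funext i
    exact i.elim0
  rw [← e] at h
  exact h

/-- `Bd` depends only on finitely many bounds -/
lemma bd_dep {M : Type} [LA.Structure M] {n : ℕ} (φ : LA.BoundedFormula Empty n) :
    ∃ q : ℕ, ∀ (ys ys' : ℕ → M), (∀ m < q, ys m = ys' m) → ∀ xs : Fin n → M,
      (Bd φ ys xs ↔ Bd φ ys' xs) := by
  induction φ with
  | falsum => exact ⟨0, fun ys ys' _ xs => Iff.rfl⟩
  | equal t s => exact ⟨0, fun ys ys' _ xs => Iff.rfl⟩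
  | rel R ts => exact ⟨0, fun ys ys' _ xs => Iff.rfl⟩
  | imp φ ψ ih1 ih2 =>
    obtain ⟨q1, h1⟩ := ih1
    obtain ⟨q2, h2⟩ := ih2
    refine ⟨max q1 q2, fun ys ys' h xs => ?_⟩
    have a1 := h1 ys ys' (fun m hm => h m (lt_of_lt_of_le hm (le_max_left _ _))) xs
    have a2 := h2 ys ys' (fun m hm => h m (lt_of_lt_of_le hm (le_max_right _ _))) xs
    simp only [Bd, a1, a2]
  | all φ ih =>
    obtain ⟨q, h1⟩ := ih
    refine ⟨q + 1, fun ys ys' h xs => ?_⟩
    simp only [Bd]
    rw [h 0 (Nat.succ_pos _)]
    refine forall_congr' fun x => imp_congr_right fun _ => ?_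
    exact h1 _ _ (fun m hm => h (m + 1) (by omega)) _

lemma blk_getD (X : ℕ → ℕ) (i k m : ℕ) (hm : m < k) : (blk X i k).getD m 0 = X (i + m) := by
  unfold blk
  rw [List.getD_eq_getElem _ _ (by simpa using hm)]
  simp

theorem ult (hP : PPT) (hB : BCODE) (hF : BFORM) (hN : NATPA) :
    Pool.Agent.Helper81.LT.ULT := by
  intro P hPd
  classical
  let bb : ℕ → ℕ := fun N => sInf {b | PP N b}
  have hbb : ∀ N, PP N (bb N) := fun N => Nat.sInf_mem (s := {b | PP N b}) (hP N)
  have hbb2 : ∀ N b, PP N b → bb N ≤ b := fun N b hb => Nat.sInf_le hb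
  choose X hX0 hX1 hX2 hX3 using hbb
  have hlt1 : ∀ N i, i < 2 * N + 1 → X N i < X N (i + 1) := by
    intro N i hi
    have := hX1 N i hi
    nlinarith
  have hlt2 : ∀ N i, i < 2 * N + 1 → X N i < X N (2 * N + 1) := by
    intro N i hi
    have h3 : ∀ d, ∀ i, i < 2 * N + 1 → i + d + 1 = 2 * N + 1 → X N i < X N (2 * N + 1) := by
      intro d
      induction d with
      | zero =>
        intro i hi h
        have := hlt1 N i hi
        rw [show i + 0 + 1 = i + 1 by ring] at h
        rwa [h] at this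
      | succ d ih =>
        intro i hi h
        have h1 := hlt1 N i hi
        have h2 := ih (i + 1) (by omega) (by omega)
        omega
    exact h3 (2 * N - i) i hi (by omega)
  refine ⟨UM, inferInstance, fun i => c (fun N => X N i), c (fun N => N), c bb, ?_⟩
  constructor
  · -- pa
    refine ⟨fun σ hσ => ?_⟩
    rw [Ultraproduct.sentence_realize (L := LA) (M := fun _ => ℕ) (u := U)]
    exact Eventually.of_forall fun N => hN.2.realize_of_mem σ hσ
  · -- k_lt
    rw [lt_iff, c_eq, ← Ultrafilter.eventually_or]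
    exact Eventually.of_forall fun N => lt_or_eq_of_le (hX0 N)
  · -- grow
    intro i u hu v hv
    obtain ⟨f, rfl⟩ := c_surj u
    obtain ⟨g, rfl⟩ := c_surj v
    rw [lt_iff] at hu hv
    rw [add_c, mul_c, lt_iff, lt_iff]
    have h1 : ∀ᶠ N in (U : Filter ℕ), i < 2 * N + 1 := ev_of_le i (fun N hN => by omega)
    constructor
    · filter_upwards [hu, hv, h1] with N a b d
      have := hX1 N i d
      nlinarith
    · filter_upwards [hu, hv, h1] with N a b d
      have := hX1 N i d
      have h2 : f N * g N ≤ X N i * X N i := Nat.mul_le_mul a.le b.le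
      nlinarith
  · -- one_lt
    rw [one_c, lt_iff]
    refine ev_of_le 0 fun N _ => ?_
    have := hX1 N 0 (by omega)
    simp only [zero_add] at this
    nlinarith
  · -- mono
    intro i
    rw [lt_iff]
    exact ev_of_le i fun N hN => hlt1 N i (by omega)
  · -- lt_b
    intro i
    rw [lt_iff]
    exact ev_of_le i fun N hN => lt_of_lt_of_le (hlt2 N i (by omega)) (hX2 N)
  · -- hom
    intro n φ i v hv
    choose f hf using fun j => c_surj (v j)
    obtain ⟨ψ, hψ⟩ := hF n φ
    obtain ⟨cc, hc1, hc2⟩ := hB n φ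
    obtain ⟨q, hq⟩ := bd_dep (M := ℕ) φ
    have hlos : ∀ i' : ℕ, Bd φ (fun m => c (fun N => X N (i' + m))) v ↔
        ∀ᶠ N in (U : Filter ℕ), Bd φ (fun m => X N (i' + m)) (fun j => f j N) := by
      intro i'
      rw [← hψ UM v]
      have e : (Sum.elim v (fun m => c (fun N => X N (i' + m))) : Fin n ⊕ ℕ → UM) =
          fun a => c (Sum.elim f (fun m N => X N (i' + m)) a : ℕ → ℕ) := by
        funext a
        cases a with
        | inl j => exact (hf j).symm
        | inr m => rfl
      rw [e, los_formula]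
      have e2 : ∀ N, (fun a => Sum.elim f (fun m N => X N (i' + m)) a N : Fin n ⊕ ℕ → ℕ) =
          Sum.elim (fun j => f j N) (fun m => X N (i' + m)) := by
        intro N
        funext a
        cases a <;> rfl
      simp only [e2, hψ]
    rw [hlos (i + 1), hlos (i + 2)]
    have hv2 : ∀ᶠ N in (U : Filter ℕ), ∀ j, f j N < X N i := by
      rw [eventually_all]
      intro j
      have := hv j
      rw [← hf j, lt_iff] at this
      exact this
    have h1 : ∀ᶠ N in (U : Filter ℕ), (Encodable.encode cc < N ∧ i < N ∧ n ≤ N ∧ q ≤ N) :=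
      ev_of_le (Encodable.encode cc + 1 + i + 1 + n + q) fun N hN => by omega
    have key : ∀ᶠ N in (U : Filter ℕ), (Bd φ (fun m => X N (i + 1 + m)) (fun j => f j N) ↔
        Bd φ (fun m => X N (i + 2 + m)) (fun j => f j N)) := by
      filter_upwards [hv2, h1] with N a b
      obtain ⟨b1, b2, b3, b4⟩ := b
      let w : List ℕ := List.ofFn (fun m : Fin n => f ⟨n - 1 - m, by omega⟩ N)
      have hw1 : w.length = n := by simp [w]
      have hw2 : ∀ j : Fin n, w.getD (n - 1 - j) 0 = f j N := by
        intro j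
        have hj := j.2
        rw [List.getD_eq_getElem _ _ (by rw [hw1]; omega)]
        simp only [w, List.getElem_ofFn]
        congr 2
        omega
      have hw3 : ∀ e ∈ w, e < X N i := by
        intro e he
        simp only [w, List.mem_ofFn] at he
        obtain ⟨m, rfl⟩ := he
        exact a _
      have hh := hX3 N cc b1 hc1 i b2 w (by omega) hw3
      rw [hc2, hc2] at hh
      simp only [hw2] at hh
      rw [hq (fun m => X N (i + 1 + m)) (fun m => (blk (X N) (i + 1) N).getD m 0)
        (fun m hm => (blk_getD _ _ _ _ (by omega)).symm),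
        hq (fun m => X N (i + 2 + m)) (fun m => (blk (X N) (i + 2) N).getD m 0)
        (fun m hm => (blk_getD _ _ _ _ (by omega)).symm)]
      exact hh
    constructor
    · intro h
      filter_upwards [h, key] with N a b
      exact b.mp a
    · intro h
      filter_upwards [h, key] with N a b
      exact b.mpr a
  · -- least
    intro b' hb' hlt
    obtain ⟨g, rfl⟩ := c_surj b'
    have e : (![c (fun N => N), c g] : Fin 2 → UM) =
        fun a => c ((![fun N => N, g] : Fin 2 → ℕ → ℕ) a) := by
      funext a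
      fin_cases a <;> rfl
    rw [e, los_formula] at hb'
    rw [lt_iff] at hlt
    have hF : ∀ᶠ N in (U : Filter ℕ), False := by
      filter_upwards [hb', hlt] with N a b
      have h1 := (hPd _).mp a
      have h2 := hbb2 N (g N) h1
      omega
    exact hF.exists.elim fun _ h => h

end Pool.Agent.Helper64.LT
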